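import Pool.Agent.Helper43.TZ.Defs

/-!
# Project TZ: elementary lemmas about the conjugation `cj u a = u a u⁻¹`
-/

set_option autoImplicit false
set_option linter.unusedSectionVars false

open MeasureTheory Filter Topology
open scoped ENNReal

namespace Pool.Agent.Helper16.TZ

open Pool.Agent.Helper43.TZ

section cj

variable {H : Type} [NormedAddCommGroup H] [InnerProductSpace ℂ H]

theorem cj_mul (u v : H ≃ₗᵢ[ℂ] H) (a : H →L[ℂ] H) : cj (u * v) a = cj u (cj v a) := by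
  refine ContinuousLinearMap.ext fun x => ?_
  rfl

theorem cj_one (a : H →L[ℂ] H) : cj 1 a = a := by
  refine ContinuousLinearMap.ext fun x => ?_
  rfl

theorem cj_id (u : H ≃ₗᵢ[ℂ] H) : cj u 1 = 1 := by
  refine ContinuousLinearMap.ext fun x => ?_
  change u (u.symm x) = x
  rw [u.apply_symm_apply]

theorem cj_zero (u : H ≃ₗᵢ[ℂ] H) : cj u 0 = 0 := by
  refine ContinuousLinearMap.ext fun x => ?_
  change u 0 = 0
  rw [map_zero]

theorem cj_add (u : H ≃ₗᵢ[ℂ] H) (a b : H →L[ℂ] H) : cj u (a + b) = cj u a + cj u b := by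
  refine ContinuousLinearMap.ext fun x => ?_
  change u (a (u.symm x) + b (u.symm x)) = u (a (u.symm x)) + u (b (u.symm x))
  rw [map_add]

theorem cj_sub (u : H ≃ₗᵢ[ℂ] H) (a b : H →L[ℂ] H) : cj u (a - b) = cj u a - cj u b := by
  refine ContinuousLinearMap.ext fun x => ?_
  change u (a (u.symm x) - b (u.symm x)) = u (a (u.symm x)) - u (b (u.symm x))
  rw [map_sub]

theorem cj_neg (u : H ≃ₗᵢ[ℂ] H) (a : H →L[ℂ] H) : cj u (-a) = -cj u a := by
  refine ContinuousLinearMap.ext fun x => ?_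
  change u (-a (u.symm x)) = -u (a (u.symm x))
  rw [map_neg]

theorem cj_smul (u : H ≃ₗᵢ[ℂ] H) (c : ℂ) (a : H →L[ℂ] H) : cj u (c • a) = c • cj u a := by
  refine ContinuousLinearMap.ext fun x => ?_
  change u (c • a (u.symm x)) = c • u (a (u.symm x))
  rw [map_smul]

theorem cj_comp (u : H ≃ₗᵢ[ℂ] H) (a b : H →L[ℂ] H) : cj u (a * b) = cj u a * cj u b := by
  refine ContinuousLinearMap.ext fun x => ?_
  change u (a (b (u.symm x))) = u (a (u.symm (u (b (u.symm x)))))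
  rw [u.symm_apply_apply]

theorem cj_pow (u : H ≃ₗᵢ[ℂ] H) (a : H →L[ℂ] H) (n : ℕ) : cj u (a ^ n) = cj u a ^ n := by
  induction n with
  | zero => rw [pow_zero, pow_zero, cj_id]
  | succ n ih => rw [pow_succ, pow_succ, cj_comp, ih]

theorem cj_sum {ι : Type*} (s : Finset ι) (u : H ≃ₗᵢ[ℂ] H) (a : ι → (H →L[ℂ] H)) : cj u (∑ i ∈ s, a i) = ∑ i ∈ s, cj u (a i) := by
  classical
  induction s using Finset.induction_on with
  | empty => rw [Finset.sum_empty, Finset.sum_empty, cj_zero]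
  | insert i s hi ih => rw [Finset.sum_insert hi, Finset.sum_insert hi, cj_add, ih]

theorem cj_symm_cj (u : H ≃ₗᵢ[ℂ] H) (a : H →L[ℂ] H) : cj u.symm (cj u a) = a := by
  refine ContinuousLinearMap.ext fun x => ?_
  change u.symm (u (a (u.symm (u x)))) = a x
  rw [u.symm_apply_apply, u.symm_apply_apply]

theorem cj_cj_symm (u : H ≃ₗᵢ[ℂ] H) (a : H →L[ℂ] H) : cj u (cj u.symm a) = a := by
  refine ContinuousLinearMap.ext fun x => ?_
  change u (u.symm (a (u (u.symm x)))) = a x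
  rw [u.apply_symm_apply, u.apply_symm_apply]

theorem norm_cj (u : H ≃ₗᵢ[ℂ] H) (a : H →L[ℂ] H) : ‖cj u a‖ = ‖a‖ := by
  have h1 : ∀ (v : H ≃ₗᵢ[ℂ] H) (b : H →L[ℂ] H), ‖cj v b‖ ≤ ‖b‖ := by
    intro v b
    refine ContinuousLinearMap.opNorm_le_bound _ (norm_nonneg _) fun x => ?_
    rw [cj_apply, v.norm_map]
    exact (b.le_opNorm _).trans (by rw [v.symm.norm_map])
  refine le_antisymm (h1 u a) ?_
  calc ‖a‖ = ‖cj u.symm (cj u a)‖ := by rw [cj_symm_cj]
    _ ≤ _ := h1 _ _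

theorem cj_injective (u : H ≃ₗᵢ[ℂ] H) {a b : H →L[ℂ] H} (h : cj u a = cj u b) : a = b := by
  rw [← cj_symm_cj u a, h, cj_symm_cj]

variable [CompleteSpace H]

theorem cj_star (u : H ≃ₗᵢ[ℂ] H) (a : H →L[ℂ] H) : cj u (star a) = star (cj u a) := by
  refine ContinuousLinearMap.ext fun x => ?_
  refine ext_inner_left ℂ fun y => ?_
  rw [ContinuousLinearMap.star_eq_adjoint, ContinuousLinearMap.star_eq_adjoint, ContinuousLinearMap.adjoint_inner_right, cj_apply, cj_apply]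
  have e1 : (inner ℂ y (u (ContinuousLinearMap.adjoint a (u.symm x))) : ℂ) = inner ℂ (u.symm y) (ContinuousLinearMap.adjoint a (u.symm x)) := by
    rw [← u.inner_map_map (u.symm y), u.apply_symm_apply]
  have e2 : (inner ℂ (u (a (u.symm y))) x : ℂ) = inner ℂ (a (u.symm y)) (u.symm x) := by
    rw [← u.inner_map_map _ (u.symm x), u.apply_symm_apply]
  rw [e1, e2, ContinuousLinearMap.adjoint_inner_right]

theorem cj_nonneg (u : H ≃ₗᵢ[ℂ] H) {a : H →L[ℂ] H} (ha : 0 ≤ a) : 0 ≤ cj u a := by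
  rw [ContinuousLinearMap.nonneg_iff_isPositive] at ha ⊢
  rw [ContinuousLinearMap.isPositive_iff']
  refine ⟨?_, fun x => ?_⟩
  · rw [IsSelfAdjoint, ← cj_star, ha.isSelfAdjoint.star_eq]
  · have e1 : (inner ℂ (cj u a x) x : ℂ) = inner ℂ (a (u.symm x)) (u.symm x) := by
      rw [← u.inner_map_map _ (u.symm x), u.apply_symm_apply, cj_apply]
    rw [e1]
    exact ha.inner_nonneg_left _

theorem cj_mono (u : H ≃ₗᵢ[ℂ] H) {a b : H →L[ℂ] H} (h : a ≤ b) : cj u a ≤ cj u b := by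
  rw [← sub_nonneg, ← cj_sub]
  exact cj_nonneg u (sub_nonneg.2 h)

/-- `cj u a = a` means that `a` commutes with `u`. -/
theorem cj_eq_iff (u : H ≃ₗᵢ[ℂ] H) (a : H →L[ℂ] H) : cj u a = a ↔ ∀ x, a (u x) = u (a x) := by
  constructor
  · intro h x
    have e1 := congrArg (fun A : H →L[ℂ] H => A (u x)) h
    change u (a (u.symm (u x))) = a (u x) at e1
    rw [u.symm_apply_apply] at e1
    exact e1.symm
  · intro h
    refine ContinuousLinearMap.ext fun x => ?_
    rw [cj_apply, ← h, u.apply_symm_apply]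

end cj

end Pool.Agent.Helper16.TZ
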