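import Pool.Agent.Helper35.FP.K0

/-!
# Project TZ: the operators `1 ⊗ a` on `K ⊗ H`

`E` with a total family `e (x, ξ)`, `⟪e (x, ξ), e (y, η)⟫ = φ x y ⟪ξ, η⟫` (a model of `K ⊗ H`): every operator `a` of `H` defines `1 ⊗ a : e (x, ξ) ↦ e (x, a ξ)`, a star homomorphism which preserves positivity.
-/

set_option autoImplicit false
set_option linter.unusedSectionVars false

open Pool.Agent.Helper35.FP

namespace Pool.Agent.Helper16.TZ

variable {X H E : Type} [NormedAddCommGroup H] [InnerProductSpace ℂ H] [CompleteSpace H]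
  [NormedAddCommGroup E] [InnerProductSpace ℂ E] [CompleteSpace E]

/-- a finite sum in `K ⊗ H` is a sum of orthogonal elementary tensors -/
theorem gram_key {φ : X → X → ℂ} {e : X × H → E} (hφ : ∀ p q, (inner ℂ (e p) (e q) : ℂ) = φ p.1 q.1 * inner ℂ p.2 q.2)
    (s : Finset (X × H)) (c : X × H → ℂ) : ∃ (n : ℕ) (w : Fin n → H), ∀ a b : H →L[ℂ] H,
      (inner ℂ (∑ p ∈ s, c p • e (p.1, a p.2)) (∑ p ∈ s, c p • e (p.1, b p.2)) : ℂ) = ∑ k, (inner ℂ (a (w k)) (b (w k)) : ℂ) := by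
  classical
  rcases subsingleton_or_nontrivial H with hH | hH
  · refine ⟨0, fun _ => 0, fun a b => ?_⟩
    rw [Finset.univ_eq_empty, Finset.sum_empty, sum_inner]
    refine Finset.sum_eq_zero fun p _ => ?_
    rw [inner_sum]
    refine Finset.sum_eq_zero fun q _ => ?_
    rw [inner_smul_left, inner_smul_right, hφ, Subsingleton.elim (a p.2) 0, inner_zero_left, mul_zero, mul_zero, mul_zero]
  · obtain ⟨ξ0, hξ0⟩ := exists_ne (0 : H)
    set ξ1 : H := ((‖ξ0‖⁻¹ : ℝ) : ℂ) • ξ0 with hξ1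
    have h1 : (inner ℂ ξ1 ξ1 : ℂ) = 1 := by
      rw [inner_self_eq_norm_sq_to_K, hξ1, norm_smul, Complex.norm_real, norm_inv, norm_norm,
        inv_mul_cancel₀ (norm_ne_zero_iff.2 hξ0)]
      norm_num
    let v : s → E := fun p => e (p.1.1, ξ1)
    set V : Submodule ℂ E := Submodule.span ℂ (Set.range v) with hV
    have : FiniteDimensional ℂ V := FiniteDimensional.span_of_finite ℂ (Set.finite_range v)
    let v' : s → V := fun p => ⟨v p, Submodule.subset_span ⟨p, rfl⟩⟩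
    let b := stdOrthonormalBasis ℂ V
    have hb : ∀ p q : s, φ p.1.1 q.1.1 = ∑ k, (inner ℂ (v' p) (b k) : ℂ) * inner ℂ (b k) (v' q) := by
      intro p q
      rw [OrthonormalBasis.sum_inner_mul_inner]
      have e1 : (inner ℂ (v' p) (v' q) : ℂ) = inner ℂ (e (p.1.1, ξ1)) (e (q.1.1, ξ1)) := rfl
      rw [e1, hφ, h1, mul_one]
    refine ⟨Module.finrank ℂ V, fun k => ∑ p : s, (c p.1 * inner ℂ (b k) (v' p)) • p.1.2, fun a a' => ?_⟩
    have e1 : ∀ T : H →L[ℂ] H, (∑ p ∈ s, c p • e (p.1, T p.2)) = ∑ p : s, c p.1 • e (p.1.1, T p.1.2) := by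
      intro T
      exact (Finset.sum_coe_sort s fun p => c p • e (p.1, T p.2)).symm
    rw [e1, e1, sum_inner]
    have e2 : ∀ k, (inner ℂ (a (∑ p : s, (c p.1 * inner ℂ (b k) (v' p)) • p.1.2)) (a' (∑ p : s, (c p.1 * inner ℂ (b k) (v' p)) • p.1.2)) : ℂ) =
        ∑ p : s, ∑ q : s, (inner ℂ (v' p) (b k) * inner ℂ (b k) (v' q) : ℂ) * ((starRingEnd ℂ) (c p.1) * c q.1 * inner ℂ (a p.1.2) (a' q.1.2)) := by
      intro k
      rw [map_sum, map_sum, sum_inner]
      refine Finset.sum_congr rfl fun p _ => ?_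
      rw [inner_sum]
      refine Finset.sum_congr rfl fun q _ => ?_
      rw [map_smul, map_smul, inner_smul_left, inner_smul_right, map_mul, inner_conj_symm]
      ring
    simp only [e2]
    rw [Finset.sum_comm]
    refine Finset.sum_congr rfl fun p _ => ?_
    rw [inner_sum, Finset.sum_comm]
    refine Finset.sum_congr rfl fun q _ => ?_
    rw [← Finset.sum_mul, ← hb, inner_smul_left, inner_smul_right, hφ]
    ring

theorem gram_norm_le {φ : X → X → ℂ} {e : X × H → E} (hφ : ∀ p q, (inner ℂ (e p) (e q) : ℂ) = φ p.1 q.1 * inner ℂ p.2 q.2)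
    (a : H →L[ℂ] H) (s : Finset (X × H)) (c : X × H → ℂ) :
    ‖∑ p ∈ s, c p • e (p.1, a p.2)‖ ≤ ‖a‖ * ‖∑ p ∈ s, c p • e p‖ := by
  obtain ⟨n, w, h⟩ := gram_key hφ s c
  have h1 := congrArg Complex.re (h a a)
  have h2 := congrArg Complex.re (h 1 1)
  have e0 : ∀ u : E, (inner ℂ u u : ℂ).re = ‖u‖ ^ 2 := by
    intro u
    rw [inner_self_eq_norm_sq_to_K]
    norm_cast
  have e1 : ∀ u : H, (inner ℂ u u : ℂ).re = ‖u‖ ^ 2 := by
    intro u
    rw [inner_self_eq_norm_sq_to_K]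
    norm_cast
  rw [e0, Complex.re_sum] at h1 h2
  simp only [e1] at h1 h2
  have e2 : (∑ p ∈ s, c p • e (p.1, (1 : H →L[ℂ] H) p.2)) = ∑ p ∈ s, c p • e p := rfl
  rw [e2] at h2
  have h3 : ‖∑ p ∈ s, c p • e (p.1, a p.2)‖ ^ 2 ≤ (‖a‖ * ‖∑ p ∈ s, c p • e p‖) ^ 2 := by
    rw [h1, mul_pow, h2, Finset.mul_sum]
    refine Finset.sum_le_sum fun k _ => ?_
    rw [← mul_pow]
    exact pow_le_pow_left₀ (norm_nonneg _) (a.le_opNorm _) 2
  exact le_of_sq_le_sq h3 (by positivity)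

theorem exists_Rt0 {φ : X → X → ℂ} {e : X × H → E} (he : Tot e) (hφ : ∀ p q, (inner ℂ (e p) (e q) : ℂ) = φ p.1 q.1 * inner ℂ p.2 q.2)
    (a : H →L[ℂ] H) : ∃ A : E →L[ℂ] E, ‖A‖ ≤ ‖a‖ ∧ ∀ p, A (e p) = e (p.1, a p.2) :=
  gram_clm he (fun p => e (p.1, a p.2)) (norm_nonneg a) fun s c => gram_norm_le hφ a s c

theorem e_add {φ : X → X → ℂ} {e : X × H → E} (he : Tot e) (hφ : ∀ p q, (inner ℂ (e p) (e q) : ℂ) = φ p.1 q.1 * inner ℂ p.2 q.2)
    (x : X) (ξ η : H) : e (x, ξ + η) = e (x, ξ) + e (x, η) := by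
  refine sub_eq_zero.1 (he _ fun p => ?_)
  rw [inner_sub_right, inner_add_right, hφ, hφ, hφ, inner_add_right]
  ring

theorem e_smul {φ : X → X → ℂ} {e : X × H → E} (he : Tot e) (hφ : ∀ p q, (inner ℂ (e p) (e q) : ℂ) = φ p.1 q.1 * inner ℂ p.2 q.2)
    (x : X) (c : ℂ) (ξ : H) : e (x, c • ξ) = c • e (x, ξ) := by
  refine sub_eq_zero.1 (he _ fun p => ?_)
  rw [inner_sub_right, inner_smul_right, hφ, hφ, inner_smul_right]
  ring

/-- **The operators `1 ⊗ a`.** -/
theorem exists_Rt {φ : X → X → ℂ} {e : X × H → E} (he : Tot e) (hφ : ∀ p q, (inner ℂ (e p) (e q) : ℂ) = φ p.1 q.1 * inner ℂ p.2 q.2) :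
    ∃ Rt : (H →L[ℂ] H) →⋆ₐ[ℂ] (E →L[ℂ] E), (∀ a p, Rt a (e p) = e (p.1, a p.2)) ∧ (∀ a, ‖Rt a‖ ≤ ‖a‖) ∧ ∀ a, 0 ≤ a → 0 ≤ Rt a := by
  choose R hn hR using exists_Rt0 he hφ
  have hstar : ∀ a, R (star a) = star (R a) := by
    intro a
    refine ext_tot he fun p => ?_
    refine sub_eq_zero.1 (he _ fun q => ?_)
    rw [inner_sub_right, ContinuousLinearMap.star_eq_adjoint (R a), ContinuousLinearMap.adjoint_inner_right, hR, hR, hφ, hφ,
      ContinuousLinearMap.star_eq_adjoint, ContinuousLinearMap.adjoint_inner_right]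
    ring
  have hmul : ∀ a b, R (a * b) = R a * R b := by
    intro a b
    refine ext_tot he fun p => ?_
    change R (a * b) (e p) = R a (R b (e p))
    rw [hR, hR, hR]
    rfl
  let Rt : (H →L[ℂ] H) →⋆ₐ[ℂ] (E →L[ℂ] E) :=
    { toFun := R
      map_one' := ext_tot he fun p => by
        rw [hR]
        rfl
      map_mul' := hmul
      map_zero' := ext_tot he fun p => by
        rw [hR]
        change e (p.1, 0) = 0
        have := e_smul he hφ p.1 0 0
        rwa [zero_smul, zero_smul] at this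
      map_add' := fun a b => ext_tot he fun p => by
        change R (a + b) (e p) = R a (e p) + R b (e p)
        rw [hR, hR, hR]
        exact e_add he hφ _ _ _
      commutes' := fun c => ext_tot he fun p => by
        rw [hR, Algebra.algebraMap_eq_smul_one, Algebra.algebraMap_eq_smul_one]
        exact e_smul he hφ _ _ _
      map_star' := hstar }
  refine ⟨Rt, hR, hn, fun a ha => ?_⟩
  obtain ⟨b, hb⟩ := CStarAlgebra.nonneg_iff_eq_star_mul_self.1 ha
  rw [hb, map_mul, map_star]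
  exact star_mul_self_nonneg _

end Pool.Agent.Helper16.TZ
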