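import Mathlib

/-!
# Project TZ (MP_0f6f3f_an), block T1: Kaplansky's density theorem for a pair of representations

`𝒜` a star algebra with two representations `π₁`, `π₂` on Hilbert spaces, `y` a unitary in the bicommutant of `π₁(𝒜)`. Then `y` is a strong* limit of operators `π₁ T`
with `‖π₁ T‖ ≤ 1` and `‖π₂ T‖ ≤ 1`. The function `2 a (1 + a* a)⁻¹` replaces the cut down.
-/

set_option autoImplicit false
set_option linter.unusedSectionVars false
set_option linter.style.haveILetI false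

open Filter Topology

namespace Pool.Agent.Helper16.TZ

section Weak

variable {H : Type*} [NormedAddCommGroup H] [InnerProductSpace ℂ H] [CompleteSpace H]
variable {𝒜 : Type*} [Ring 𝒜] [StarRing 𝒜] [Algebra ℂ 𝒜] [StarModule ℂ 𝒜] (π : 𝒜 →⋆ₐ[ℂ] (H →L[ℂ] H)) (y : H →L[ℂ] H)
  (hy : ∀ c : H →L[ℂ] H, (∀ a, c * π a = π a * c) → c * y = y * c)

/-- the amplification of an operator -/
noncomputable def amp {ι : Type*} [Fintype ι] (T : H →L[ℂ] H) : PiLp 2 (fun _ : ι => H) →L[ℂ] PiLp 2 (fun _ : ι => H) :=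
  ((PiLp.continuousLinearEquiv 2 ℂ (fun _ : ι => H)).symm : (ι → H) →L[ℂ] PiLp 2 (fun _ : ι => H)).comp
    ((ContinuousLinearMap.pi fun i => T.comp (ContinuousLinearMap.proj i)).comp
      ((PiLp.continuousLinearEquiv 2 ℂ (fun _ : ι => H)) : PiLp 2 (fun _ : ι => H) →L[ℂ] (ι → H)))

theorem amp_apply {ι : Type*} [Fintype ι] (T : H →L[ℂ] H) (ζ : PiLp 2 (fun _ : ι => H)) (i : ι) : (amp T ζ) i = T (ζ i) := rfl

include hy in
/-- **The bicommutant theorem**, in weak form. -/
theorem weak_density {ι : Type*} [Fintype ι] (ζ η : ι → H) (h : ∀ a, ∑ i, (inner ℂ (η i) (π a (ζ i)) : ℂ) = 0) :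
    ∑ i, (inner ℂ (η i) (y (ζ i)) : ℂ) = 0 := by
  classical
  set E := PiLp 2 (fun _ : ι => H) with hE
  set Z : E := WithLp.toLp 2 ζ with hZ
  set N : E := WithLp.toLp 2 η with hN
  -- the cyclic subspace
  let f : 𝒜 →ₗ[ℂ] E :=
    { toFun := fun a => amp (π a) Z
      map_add' := fun a b => by
        refine PiLp.ext fun i => ?_
        change (π (a + b)) (ζ i) = (π a) (ζ i) + (π b) (ζ i)
        rw [map_add]; rfl
      map_smul' := fun c a => by
        refine PiLp.ext fun i => ?_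
        change (π (c • a)) (ζ i) = c • (π a) (ζ i)
        rw [map_smul]; rfl }
  set M : Submodule ℂ E := (LinearMap.range f).topologicalClosure with hM
  have hMc : IsClosed (M : Set E) := Submodule.isClosed_topologicalClosure _
  have : CompleteSpace M := hMc.completeSpace_coe
  -- invariance of `M`
  have hinv : ∀ a, ∀ x ∈ M, amp (π a) x ∈ M := by
    intro a x hx
    have h1 : Set.MapsTo (amp (ι := ι) (π a)) (LinearMap.range f : Set E) (LinearMap.range f : Set E) := by
      rintro _ ⟨b, rfl⟩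
      refine ⟨a * b, ?_⟩
      refine PiLp.ext fun i => ?_
      change (π (a * b)) (ζ i) = (π a) ((π b) (ζ i))
      rw [map_mul]; rfl
    have h2 := h1.closure (amp (ι := ι) (π a)).continuous
    exact h2 hx
  have hadj : ∀ a, ∀ x y : E, (inner ℂ (amp (π a) x) y : ℂ) = inner ℂ x (amp (π (star a)) y) := by
    intro a x y
    rw [PiLp.inner_apply, PiLp.inner_apply]
    refine Finset.sum_congr rfl fun i _ => ?_
    rw [amp_apply, amp_apply, map_star, ContinuousLinearMap.star_eq_adjoint, ContinuousLinearMap.adjoint_inner_right]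
  have hinv' : ∀ a, ∀ x ∈ Mᗮ, amp (π a) x ∈ Mᗮ := by
    intro a x hx
    rw [Submodule.mem_orthogonal'] at hx ⊢
    intro u hu
    rw [hadj]
    exact hx _ (hinv _ u hu)
  -- the projection commutes with the amplifications of `π`
  set P : E →L[ℂ] E := M.starProjection with hP
  have hPc : ∀ a x, P (amp (π a) x) = amp (π a) (P x) := by
    intro a x
    have h1 : amp (π a) x = amp (π a) (P x) + amp (π a) (x - P x) := by rw [← map_add, add_sub_cancel]
    rw [h1, map_add]
    have h2 : P (amp (π a) (P x)) = amp (π a) (P x) :=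
      Submodule.starProjection_eq_self_iff.2 (hinv a _ (Submodule.starProjection_apply_mem _ _))
    have h3 : P (amp (π a) (x - P x)) = 0 :=
      (Submodule.starProjection_apply_eq_zero_iff _).2 (hinv' a _ (Submodule.sub_starProjection_mem_orthogonal x))
    rw [h2, h3, add_zero]
  -- so does it with the amplification of `y`
  let inc : ι → (H →L[ℂ] E) := fun j =>
    ((PiLp.continuousLinearEquiv 2 ℂ (fun _ : ι => H)).symm : (ι → H) →L[ℂ] E).comp (ContinuousLinearMap.single ℂ (fun _ : ι => H) j)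
  let prj : ι → (E →L[ℂ] H) := fun i =>
    (ContinuousLinearMap.proj i).comp ((PiLp.continuousLinearEquiv 2 ℂ (fun _ : ι => H)) : E →L[ℂ] (ι → H))
  have hinc : ∀ (T : H →L[ℂ] H) (j : ι) (x : H), amp T (inc j x) = inc j (T x) := by
    intro T j x
    refine PiLp.ext fun i => ?_
    rw [amp_apply]
    change T (Pi.single (M := fun _ => H) j x i) = Pi.single (M := fun _ => H) j (T x) i
    rcases eq_or_ne i j with rfl | hij
    · rw [Pi.single_eq_same, Pi.single_eq_same]
    · rw [Pi.single_eq_of_ne hij, Pi.single_eq_of_ne hij, map_zero]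
  have hdec : ∀ x : E, x = ∑ j, inc j (x j) := by
    intro x
    refine PiLp.ext fun i => ?_
    have h1 : (∑ j, inc j (x j)) i = ∑ j, (inc j (x j)) i := by
      change prj i (∑ j, inc j (x j)) = _
      rw [map_sum]
      rfl
    rw [h1]
    have h2 : ∀ j, (inc j (x j)) i = Pi.single (M := fun _ => H) j (x j) i := fun j => rfl
    simp only [h2]
    rw [Finset.sum_eq_single i]
    · rw [Pi.single_eq_same]
    · intro j _ hj
      exact Pi.single_eq_of_ne hj.symm _
    · intro hi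
      exact absurd (Finset.mem_univ i) hi
  have hpy : ∀ i j, ((prj i).comp (P.comp (inc j))) * y = y * ((prj i).comp (P.comp (inc j))) := by
    intro i j
    refine hy _ fun a => ?_
    refine ContinuousLinearMap.ext fun x => ?_
    change prj i (P (inc j (π a x))) = π a (prj i (P (inc j x)))
    rw [← hinc, hPc]
    rfl
  have hPy : P (amp y Z) = amp y (P Z) := by
    refine PiLp.ext fun i => ?_
    rw [amp_apply]
    have h1 : ∀ x : E, (P x) i = ∑ j, prj i (P (inc j (x j))) := by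
      intro x
      conv_lhs => rw [hdec x]
      change prj i (P (∑ j, inc j (x j))) = _
      rw [map_sum, map_sum]
    rw [h1, h1, map_sum]
    refine Finset.sum_congr rfl fun j _ => ?_
    rw [amp_apply]
    exact congrArg (fun T : H →L[ℂ] H => T (Z j)) (hpy i j)
  have hZM : Z ∈ M := by
    refine Submodule.le_topologicalClosure _ ⟨1, ?_⟩
    refine PiLp.ext fun i => ?_
    change (π 1) (ζ i) = ζ i
    rw [map_one]; rfl
  have hyM : amp y Z ∈ M := by
    rw [← Submodule.starProjection_eq_self_iff]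
    change P (amp y Z) = _
    rw [hPy, show P Z = Z from Submodule.starProjection_eq_self_iff.2 hZM]
  have hNM : N ∈ Mᗮ := by
    rw [hM, Submodule.orthogonal_closure, Submodule.mem_orthogonal']
    rintro _ ⟨a, rfl⟩
    rw [PiLp.inner_apply]
    exact h a
  have h2 := (Submodule.mem_orthogonal' _ _).1 hNM _ hyM
  rw [PiLp.inner_apply] at h2
  exact h2

include hy in
/-- strong* density -/
theorem strong_star_density {ι : Type*} [Fintype ι] (ξ : ι → H) {ε : ℝ} (hε : 0 < ε) :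
    ∃ a, ∀ i, ‖π a (ξ i) - y (ξ i)‖ ≤ ε ∧ ‖π (star a) (ξ i) - star y (ξ i)‖ ≤ ε := by
  classical
  set E := PiLp 2 (fun _ : ι ⊕ ι => H) with hE
  letI : InnerProductSpace ℝ E := InnerProductSpace.rclikeToReal ℂ E
  let f : 𝒜 → E := fun a => WithLp.toLp 2 (Sum.elim (fun i => π a (ξ i)) (fun i => π (star a) (ξ i)))
  have hfi : ∀ a i, (f a) (Sum.inl i) = π a (ξ i) := fun a i => rfl
  have hfj : ∀ a i, (f a) (Sum.inr i) = π (star a) (ξ i) := fun a i => rfl
  set Y : E := WithLp.toLp 2 (Sum.elim (fun i => y (ξ i)) (fun i => star y (ξ i))) with hY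
  let M : Submodule ℝ E :=
    { carrier := Set.range f
      add_mem' := by
        rintro _ _ ⟨a, rfl⟩ ⟨b, rfl⟩
        refine ⟨a + b, PiLp.ext fun i => ?_⟩
        rcases i with i | i
        · change π (a + b) (ξ i) = π a (ξ i) + π b (ξ i)
          rw [map_add]; rfl
        · change π (star (a + b)) (ξ i) = π (star a) (ξ i) + π (star b) (ξ i)
          rw [star_add, map_add]; rfl
      zero_mem' := by
        refine ⟨0, PiLp.ext fun i => ?_⟩
        rcases i with i | i
        · change π 0 (ξ i) = 0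
          rw [map_zero]; rfl
        · change π (star 0) (ξ i) = 0
          rw [star_zero, map_zero]; rfl
      smul_mem' := by
        rintro c _ ⟨a, rfl⟩
        refine ⟨(c : ℂ) • a, PiLp.ext fun i => ?_⟩
        rcases i with i | i
        · change π ((c : ℂ) • a) (ξ i) = c • π a (ξ i)
          rw [map_smul]; rfl
        · change π (star ((c : ℂ) • a)) (ξ i) = c • π (star a) (ξ i)
          rw [star_smul, map_smul, Complex.star_def, Complex.conj_ofReal]; rfl }
  have hmem : Y ∈ M.topologicalClosure := by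
    rw [← Submodule.orthogonal_orthogonal_eq_closure, Submodule.mem_orthogonal']
    intro η hη
    rw [Submodule.mem_orthogonal'] at hη
    -- the complex functional vanishes on `𝒜`
    have h1 : ∀ a, (inner ℂ η (f a) : ℂ).re = 0 := by
      intro a
      have := hη (f a) ⟨a, rfl⟩
      exact this
    have h2 : ∀ a, (∑ i, (inner ℂ (Sum.elim (fun i => η (Sum.inl i)) ξ i) (π a (Sum.elim ξ (fun i => η (Sum.inr i)) i)) : ℂ)).re = 0 := by
      intro a
      have h3 := h1 a
      rw [PiLp.inner_apply, Fintype.sum_sum_type] at h3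
      rw [Fintype.sum_sum_type]
      simp only [Sum.elim_inl, Sum.elim_inr]
      simp only [hfi, hfj] at h3
      rw [Complex.add_re] at h3 ⊢
      have h4 : (∑ i, (inner ℂ (ξ i) (π a (η (Sum.inr i))) : ℂ)).re = (∑ i, (inner ℂ (η (Sum.inr i)) (π (star a) (ξ i)) : ℂ)).re := by
        rw [Complex.re_sum, Complex.re_sum]
        refine Finset.sum_congr rfl fun i _ => ?_
        rw [map_star, ContinuousLinearMap.star_eq_adjoint, ContinuousLinearMap.adjoint_inner_right, ← inner_conj_symm, Complex.conj_re]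
      rw [h4]
      exact h3
    have h5 : ∀ a, ∑ i, (inner ℂ (Sum.elim (fun i => η (Sum.inl i)) ξ i) (π a (Sum.elim ξ (fun i => η (Sum.inr i)) i)) : ℂ) = 0 := by
      intro a
      have h6 := h2 (-Complex.I • a)
      have h7 : ∑ i, (inner ℂ (Sum.elim (fun i => η (Sum.inl i)) ξ i) (π (-Complex.I • a) (Sum.elim ξ (fun i => η (Sum.inr i)) i)) : ℂ) =
          -Complex.I * ∑ i, (inner ℂ (Sum.elim (fun i => η (Sum.inl i)) ξ i) (π a (Sum.elim ξ (fun i => η (Sum.inr i)) i)) : ℂ) := by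
        rw [Finset.mul_sum]
        refine Finset.sum_congr rfl fun i _ => ?_
        rw [map_smul, smul_apply, inner_smul_right]
      rw [h7] at h6
      apply Complex.ext
      · exact h2 a
      · simpa using h6
    have h8 := weak_density π y hy _ _ h5
    have h9 := congrArg Complex.re h8
    rw [Fintype.sum_sum_type, Complex.add_re] at h9
    simp only [Sum.elim_inl, Sum.elim_inr] at h9
    change (inner ℂ Y η : ℂ).re = 0
    rw [← inner_conj_symm, Complex.conj_re, PiLp.inner_apply, Fintype.sum_sum_type, Complex.add_re]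
    have h10 : (∑ i, (inner ℂ (ξ i) (y (η (Sum.inr i))) : ℂ)).re = (∑ i, (inner ℂ (η (Sum.inr i)) (star y (ξ i)) : ℂ)).re := by
      rw [Complex.re_sum, Complex.re_sum]
      refine Finset.sum_congr rfl fun i _ => ?_
      rw [ContinuousLinearMap.star_eq_adjoint, ContinuousLinearMap.adjoint_inner_right, ← inner_conj_symm, Complex.conj_re]
    rw [h10] at h9
    exact h9
  obtain ⟨_, ⟨a, rfl⟩, ha⟩ := Metric.mem_closure_iff.1 hmem ε hε
  rw [dist_comm, dist_eq_norm] at ha
  refine ⟨a, fun i => ⟨?_, ?_⟩⟩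
  · have h1 := PiLp.norm_apply_le (f a - Y) (Sum.inl i)
    exact h1.trans ha.le
  · have h1 := PiLp.norm_apply_le (f a - Y) (Sum.inr i)
    exact h1.trans ha.le

end Weak

section One

variable {H : Type*} [NormedAddCommGroup H] [InnerProductSpace ℂ H] [CompleteSpace H]

theorem inner_star_left (T : H →L[ℂ] H) (x y : H) : (inner ℂ (star T x) y : ℂ) = inner ℂ x (T y) := by
  rw [ContinuousLinearMap.star_eq_adjoint, ContinuousLinearMap.adjoint_inner_left]

theorem inner_star_right (T : H →L[ℂ] H) (x y : H) : (inner ℂ x (star T y) : ℂ) = inner ℂ (T x) y := by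
  rw [ContinuousLinearMap.star_eq_adjoint, ContinuousLinearMap.adjoint_inner_right]

theorem isUnit_one_add (T : H →L[ℂ] H) : IsUnit (1 + star T * T) := by
  refine ContinuousLinearMap.isUnit_of_forall_le_norm_inner_map _ (c := 1) one_pos fun x => ?_
  have h1 : (inner ℂ ((1 + star T * T) x) x : ℂ) = ((‖x‖ ^ 2 + ‖T x‖ ^ 2 : ℝ) : ℂ) := by
    change (inner ℂ (x + star T (T x)) x : ℂ) = _
    rw [inner_add_left, inner_star_left, inner_self_eq_norm_sq_to_K, inner_self_eq_norm_sq_to_K]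
    push_cast
    rfl
  rw [h1, Complex.norm_real, Real.norm_of_nonneg (by positivity)]
  have : (((1 : NNReal) : ℝ)) = 1 := rfl
  rw [this, mul_one]
  nlinarith [sq_nonneg ‖T x‖]

/-- the basic estimate for `1 + T T*` -/
theorem norm_le_of_add {T : H →L[ℂ] H} {v p q : H} (h : v + T (star T v) = p + T q) : ‖v‖ ≤ ‖p‖ + ‖q‖ := by
  have h1 : ((‖v‖ ^ 2 + ‖star T v‖ ^ 2 : ℝ) : ℂ) = inner ℂ v p + inner ℂ (star T v) q := by
    have h2 : (inner ℂ v (v + T (star T v)) : ℂ) = inner ℂ v (p + T q) := by rw [h]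
    rw [inner_add_right, inner_add_right, ← inner_star_left T v (star T v), ← inner_star_left T v q,
      inner_self_eq_norm_sq_to_K, inner_self_eq_norm_sq_to_K] at h2
    rw [← h2]
    push_cast
    rfl
  have h2 : ‖v‖ ^ 2 + ‖star T v‖ ^ 2 ≤ ‖v‖ * ‖p‖ + ‖star T v‖ * ‖q‖ := by
    have h3 := congrArg norm h1
    rw [Complex.norm_real, Real.norm_of_nonneg (by positivity)] at h3
    rw [h3]
    exact (norm_add_le _ _).trans (add_le_add (norm_inner_le_norm _ _) (norm_inner_le_norm _ _))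
  by_contra h3
  push Not at h3
  nlinarith [sq_nonneg (‖star T v‖ - ‖q‖ / 2), norm_nonneg p, norm_nonneg q, norm_nonneg v]

theorem norm_two_mul_le {T r : H →L[ℂ] H} (hr : (1 + star T * T) * r = 1) : ‖(2 : ℂ) • (T * r)‖ ≤ 1 := by
  refine ContinuousLinearMap.opNorm_le_bound _ zero_le_one fun u => ?_
  rw [one_mul]
  set w := r u with hw
  have h1 : u = w + star T (T w) := by
    have := congrArg (fun A : H →L[ℂ] H => A u) hr
    exact this.symm
  have h2 : ((2 : ℂ) • (T * r)) u = (2 : ℂ) • T w := rfl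
  rw [h2, norm_smul, Complex.norm_ofNat]
  have h3 : ‖u‖ ^ 2 = ‖w‖ ^ 2 + 2 * ‖T w‖ ^ 2 + ‖star T (T w)‖ ^ 2 := by
    rw [h1, norm_add_sq (𝕜 := ℂ), inner_star_right, inner_self_eq_norm_sq (𝕜 := ℂ)]
  have h4 : ‖T w‖ ^ 2 ≤ ‖w‖ * ‖star T (T w)‖ := by
    have h5 : ((‖T w‖ ^ 2 : ℝ) : ℂ) = inner ℂ w (star T (T w)) := by
      rw [inner_star_right, inner_self_eq_norm_sq_to_K]
      push_cast
      rfl
    have h6 := congrArg norm h5
    rw [Complex.norm_real, Real.norm_of_nonneg (by positivity)] at h6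
    rw [h6]
    exact norm_inner_le_norm _ _
  refine (sq_le_sq₀ (by positivity) (norm_nonneg _)).1 ?_
  rw [h3]
  nlinarith [sq_nonneg (‖w‖ - ‖star T (T w)‖)]

theorem approx {T r y : H →L[ℂ] H} (hr : (1 + star T * T) * r = 1) (hy : star y * y = 1) (x : H) :
    ‖((2 : ℂ) • (T * r)) x - y x‖ ≤ ‖T x - y x‖ + ‖star T (y x) - star y (y x)‖ := by
  have hx : star y (y x) = x := congrArg (fun A : H →L[ℂ] H => A x) hy
  set w := r x with hw
  have h1 : x = w + star T (T w) := (congrArg (fun A : H →L[ℂ] H => A x) hr).symm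
  have h2 : ((2 : ℂ) • (T * r)) x = (2 : ℂ) • T w := rfl
  have h3 := norm_le_of_add (T := T) (v := (2 : ℂ) • T w - y x) (p := T x - y x) (q := star y (y x) - star T (y x)) (by
    have h4 : T x = T w + T (star T (T w)) := by
      conv_lhs => rw [h1]
      rw [map_add]
    rw [map_sub, map_sub, map_sub, hx, map_smul, map_smul, two_smul ℂ, two_smul ℂ]
    have h5 : T (star T (T w)) = T x - T w := by rw [h4]; abel
    rw [h5]
    abel)
  rw [h2]
  refine h3.trans ?_
  rw [norm_sub_rev (star y (y x))]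

theorem approx' {T r y : H →L[ℂ] H} (hr : (1 + star T * T) * r = 1) (hy : y * star y = 1) (x : H) :
    ‖star ((2 : ℂ) • (T * r)) x - star y x‖ ≤ ‖star T x - star y x‖ + ‖T (star y x) - y (star y x)‖ := by
  have hx : y (star y x) = x := congrArg (fun A : H →L[ℂ] H => A x) hy
  have hrs : star r = r := by
    have h1 := congrArg star hr
    rw [star_mul, star_one, star_add, star_one, star_mul, star_star] at h1
    calc star r = star r * ((1 + star T * T) * r) := by rw [hr, mul_one]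
      _ = r := by rw [← mul_assoc, h1, one_mul]
  have h2 : star ((2 : ℂ) • (T * r)) = (2 : ℂ) • (r * star T) := by
    rw [star_smul, star_mul, hrs]
    congr 1
    exact Complex.conj_ofNat 2
  set w := r (star T x) with hw
  have h1 : star T x = w + star T (T w) := (congrArg (fun A : H →L[ℂ] H => A (star T x)) hr).symm
  have h3 := norm_le_of_add (T := star T) (v := (2 : ℂ) • w - star y x) (p := star T x - star y x) (q := y (star y x) - T (star y x)) (by
    rw [star_star, map_sub, map_sub, map_sub, hx, map_smul, map_smul, two_smul ℂ, two_smul ℂ]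
    have h5 : star T (T w) = star T x - w := by rw [h1]; abel
    rw [h5]
    abel)
  have h4 : star ((2 : ℂ) • (T * r)) x = (2 : ℂ) • w := by rw [h2]; rfl
  rw [h4]
  refine h3.trans ?_
  rw [norm_sub_rev (y (star y x))]

end One

section Pair

variable {H₁ : Type*} [NormedAddCommGroup H₁] [InnerProductSpace ℂ H₁] [CompleteSpace H₁]
variable {H₂ : Type*} [NormedAddCommGroup H₂] [InnerProductSpace ℂ H₂] [CompleteSpace H₂]
variable {𝒜 : Type*} [Ring 𝒜] [StarRing 𝒜] [Algebra ℂ 𝒜] [StarModule ℂ 𝒜] (π₁ : 𝒜 →⋆ₐ[ℂ] (H₁ →L[ℂ] H₁))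
  (π₂ : 𝒜 →⋆ₐ[ℂ] (H₂ →L[ℂ] H₂))

/-- **Kaplansky's density theorem for a pair of representations.** -/
theorem kaplansky (y : H₁ →L[ℂ] H₁) (hy : ∀ c : H₁ →L[ℂ] H₁, (∀ a, c * π₁ a = π₁ a * c) → c * y = y * c)
    (hu : star y * y = 1) (hu' : y * star y = 1) {ι : Type*} [Fintype ι] (ξ : ι → H₁) {ε : ℝ} (hε : 0 < ε) :
    ∃ T : 𝒜, ‖π₁ T‖ ≤ 1 ∧ ‖π₂ T‖ ≤ 1 ∧ ∀ i, ‖π₁ T (ξ i) - y (ξ i)‖ ≤ ε ∧ ‖π₁ (star T) (ξ i) - star y (ξ i)‖ ≤ ε := by
  classical
  -- the bound of the vectors
  obtain ⟨C, hC0, hC⟩ : ∃ C : ℝ, 0 ≤ C ∧ ∀ i, ‖ξ i‖ ≤ C :=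
    ⟨∑ i, ‖ξ i‖, Finset.sum_nonneg fun _ _ => norm_nonneg _, fun i => Finset.single_le_sum (f := fun i => ‖ξ i‖)
      (fun _ _ => norm_nonneg _) (Finset.mem_univ i)⟩
  -- a first approximation, for the vectors `ξ`, `y ξ`, `y* ξ`
  obtain ⟨a, ha⟩ := strong_star_density π₁ y hy (Sum.elim ξ (Sum.elim (fun i => y (ξ i)) (fun i => star y (ξ i)))) (ε := ε / 4)
    (by positivity)
  -- the closure of the image in the product
  let Ψ : 𝒜 →⋆ₐ[ℂ] ((H₁ →L[ℂ] H₁) × (H₂ →L[ℂ] H₂)) := StarAlgHom.prod π₁ π₂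
  have hΨ1 : ∀ a, (Ψ a).1 = π₁ a := fun a => rfl
  have hΨ2 : ∀ a, (Ψ a).2 = π₂ a := fun a => rfl
  set S : StarSubalgebra ℂ ((H₁ →L[ℂ] H₁) × (H₂ →L[ℂ] H₂)) := Ψ.range.topologicalClosure with hS
  haveI : IsClosed (S : Set ((H₁ →L[ℂ] H₁) × (H₂ →L[ℂ] H₂))) := StarSubalgebra.isClosed_topologicalClosure _
  have hmem : ∀ a, Ψ a ∈ S := fun a => StarSubalgebra.le_topologicalClosure _ ⟨a, rfl⟩
  let u : S := ⟨Ψ (1 + star a * a), hmem _⟩
  have hunit : IsUnit u := by
    rw [← StarSubalgebra.coe_isUnit]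
    change IsUnit (Ψ (1 + star a * a))
    rw [Prod.isUnit_iff]
    constructor
    · have h1 : (Ψ (1 + star a * a)).1 = 1 + star (π₁ a) * π₁ a := by rw [hΨ1, map_add, map_one, map_mul, map_star]
      rw [h1]
      exact isUnit_one_add _
    · have h1 : (Ψ (1 + star a * a)).2 = 1 + star (π₂ a) * π₂ a := by rw [hΨ2, map_add, map_one, map_mul, map_star]
      rw [h1]
      exact isUnit_one_add _
  obtain ⟨r, hr⟩ := hunit.exists_right_inv
  have e1 : (1 + star (π₁ a) * π₁ a) * (r : (H₁ →L[ℂ] H₁) × (H₂ →L[ℂ] H₂)).1 = 1 := by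
    have h1 := congrArg (fun z : S => (z : (H₁ →L[ℂ] H₁) × (H₂ →L[ℂ] H₂)).1) hr
    have h2 : (Ψ (1 + star a * a)).1 = 1 + star (π₁ a) * π₁ a := by rw [hΨ1, map_add, map_one, map_mul, map_star]
    rw [← h2]
    exact h1
  have e2 : (1 + star (π₂ a) * π₂ a) * (r : (H₁ →L[ℂ] H₁) × (H₂ →L[ℂ] H₂)).2 = 1 := by
    have h1 := congrArg (fun z : S => (z : (H₁ →L[ℂ] H₁) × (H₂ →L[ℂ] H₂)).2) hr
    have h2 : (Ψ (1 + star a * a)).2 = 1 + star (π₂ a) * π₂ a := by rw [hΨ2, map_add, map_one, map_mul, map_star]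
    rw [← h2]
    exact h1
  -- the function of `a`
  set f : (H₁ →L[ℂ] H₁) × (H₂ →L[ℂ] H₂) := (2 : ℂ) • (Ψ a * r) with hf
  have hfS : f ∈ S := S.smul_mem (S.mul_mem (hmem a) r.2) _
  have hf1 : f.1 = (2 : ℂ) • (π₁ a * (r : (H₁ →L[ℂ] H₁) × (H₂ →L[ℂ] H₂)).1) := rfl
  have hf2 : f.2 = (2 : ℂ) • (π₂ a * (r : (H₁ →L[ℂ] H₁) × (H₂ →L[ℂ] H₂)).2) := rfl
  have n1 : ‖f.1‖ ≤ 1 := by rw [hf1]; exact norm_two_mul_le e1
  have n2 : ‖f.2‖ ≤ 1 := by rw [hf2]; exact norm_two_mul_le e2
  -- approximate `f`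
  set δ : ℝ := ε / (4 * (C + 1)) with hδ
  have hδ0 : 0 < δ := by positivity
  obtain ⟨_, ⟨T, rfl⟩, hT⟩ := Metric.mem_closure_iff.1 hfS δ hδ0
  have hT1 : ‖π₁ T - f.1‖ ≤ δ := by
    have h1 : ‖(Ψ T - f).1‖ ≤ ‖Ψ T - f‖ := norm_fst_le _
    rw [dist_comm, dist_eq_norm] at hT
    exact h1.trans hT.le
  have hT2 : ‖π₂ T - f.2‖ ≤ δ := by
    have h1 : ‖(Ψ T - f).2‖ ≤ ‖Ψ T - f‖ := norm_snd_le _
    rw [dist_comm, dist_eq_norm] at hT
    exact h1.trans hT.le
  have m1 : ‖π₁ T‖ ≤ 1 + δ := by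
    have := norm_add_le (π₁ T - f.1) f.1
    rw [sub_add_cancel] at this
    linarith
  have m2 : ‖π₂ T‖ ≤ 1 + δ := by
    have := norm_add_le (π₂ T - f.2) f.2
    rw [sub_add_cancel] at this
    linarith
  have hδ1 : 0 < 1 + δ := by linarith
  refine ⟨((1 + δ : ℝ) : ℂ)⁻¹ • T, ?_, ?_, fun i => ?_⟩
  · rw [map_smul, norm_smul, norm_inv, Complex.norm_real, Real.norm_of_nonneg hδ1.le, inv_mul_le_iff₀ hδ1, mul_one]
    exact m1
  · rw [map_smul, norm_smul, norm_inv, Complex.norm_real, Real.norm_of_nonneg hδ1.le, inv_mul_le_iff₀ hδ1, mul_one]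
    exact m2
  · -- scaling costs `δ ‖·‖`
    have key : ∀ (A : H₁ →L[ℂ] H₁) (z w : H₁), ‖A‖ ≤ 1 + δ → ‖z‖ ≤ C → ‖((1 + δ : ℝ) : ℂ)⁻¹ • A z - w‖ ≤ ‖A z - w‖ + δ * C := by
      intro A z w hA hz
      have h1 : ((1 + δ : ℝ) : ℂ)⁻¹ • A z - w = (A z - w) - ((δ / (1 + δ) : ℝ) : ℂ) • A z := by
        have h2 : ((1 + δ : ℝ) : ℂ)⁻¹ = 1 - ((δ / (1 + δ) : ℝ) : ℂ) := by
          rw [← Complex.ofReal_inv, ← Complex.ofReal_one, ← Complex.ofReal_sub]
          congr 1
          field_simp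
          ring
        rw [h2, sub_smul, one_smul]
        abel
      rw [h1]
      refine (norm_sub_le _ _).trans (add_le_add le_rfl ?_)
      rw [norm_smul, Complex.norm_real, Real.norm_of_nonneg (by positivity)]
      calc δ / (1 + δ) * ‖A z‖ ≤ δ / (1 + δ) * ((1 + δ) * C) := by
            gcongr
            exact (ContinuousLinearMap.le_opNorm _ _).trans (mul_le_mul hA hz (norm_nonneg _) hδ1.le)
        _ = δ * C := by field_simp
    have hδC : δ * C ≤ ε / 4 := by
      rw [hδ, div_mul_eq_mul_div, div_le_div_iff₀ (by positivity) (by norm_num)]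
      nlinarith
    have a1 := (ha (Sum.inl i)).1
    have a2 := (ha (Sum.inl i)).2
    have a3 := (ha (Sum.inr (Sum.inl i))).2
    have a4 := (ha (Sum.inr (Sum.inr i))).1
    simp only [Sum.elim_inl, Sum.elim_inr] at a1 a2 a3 a4
    rw [map_star] at a2 a3
    constructor
    · rw [map_smul]
      refine (key (π₁ T) (ξ i) (y (ξ i)) m1 (hC i)).trans ?_
      have h1 : ‖π₁ T (ξ i) - y (ξ i)‖ ≤ ‖(π₁ T - f.1) (ξ i)‖ + ‖f.1 (ξ i) - y (ξ i)‖ := by
        refine le_trans (le_of_eq ?_) (norm_add_le _ _)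
        congr 1
        rw [sub_apply]
        abel
      have h2 : ‖(π₁ T - f.1) (ξ i)‖ ≤ δ * C := (ContinuousLinearMap.le_opNorm _ _).trans (mul_le_mul hT1 (hC i) (norm_nonneg _) hδ0.le)
      have h3 := approx e1 hu (ξ i)
      rw [← hf1] at h3
      linarith
    · rw [star_smul, map_smul, map_star, Complex.star_def, map_inv₀, Complex.conj_ofReal]
      have m1' : ‖star (π₁ T)‖ ≤ 1 + δ := by rw [norm_star]; exact m1
      refine (key (star (π₁ T)) (ξ i) (star y (ξ i)) m1' (hC i)).trans ?_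
      have h1 : ‖star (π₁ T) (ξ i) - star y (ξ i)‖ ≤ ‖(star (π₁ T) - star f.1) (ξ i)‖ + ‖star f.1 (ξ i) - star y (ξ i)‖ := by
        refine le_trans (le_of_eq ?_) (norm_add_le _ _)
        congr 1
        rw [sub_apply]
        abel
      have h2 : ‖(star (π₁ T) - star f.1) (ξ i)‖ ≤ δ * C := by
        refine (ContinuousLinearMap.le_opNorm _ _).trans (mul_le_mul ?_ (hC i) (norm_nonneg _) hδ0.le)
        rw [← star_sub, norm_star]
        exact hT1
      have h3 := approx' e1 hu' (ξ i)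
      rw [← hf1] at h3
      linarith

end Pair

end Pool.Agent.Helper16.TZ
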