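import Pool.Agent.Helper43.TZ.Phi
import Pool.Agent.Helper16.TZ.Gram

/-!
# Project TZ: the model of `K ⊗ H` for the data `Lev`

`J2X`: the type of the Lipschitz square integrable elements; `Mod`: a Hilbert space `E` with a total family `e (x, ξ)`, `⟪e (x, ξ), e (y, η)⟫ = ∫ ⟪α_h(x) ξ, α_h(y) η⟫ dh`.
-/

set_option autoImplicit false
set_option linter.unusedSectionVars false

open MeasureTheory Filter Topology
open scoped ENNReal

open Pool.Agent.Helper35.FP Pool.Agent.Helper43.TZ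

namespace Pool.Agent.Helper16.TZ

variable {S1 S2 H : Type} [Group S1] [TopologicalSpace S1] [Group S2] [TopologicalSpace S2] [IsTopologicalGroup S2]
  [LocallyCompactSpace S2] [SecondCountableTopology S2] [T2Space S2] [MeasurableSpace S2] [BorelSpace S2]
  {μ : Measure S2} [μ.IsHaarMeasure] [NormedAddCommGroup H] [InnerProductSpace ℂ H] [CompleteSpace H]

/-- The Lipschitz square integrable elements of `J`. -/
abbrev J2X (L : Lev S1 S2 H μ) (z : Siz S2 μ) : Type := {x : H →L[ℂ] H // x ∈ L.J2 z}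

theorem cj_W_mem (L : Lev S1 S2 H μ) {a : H →L[ℂ] H} (ha : a ∈ L.J) (h : S2) : cj (L.W h) a ∈ L.J := L.RW a ha h

theorem cj_V_mem (L : Lev S1 S2 H μ) {a : H →L[ℂ] H} (ha : a ∈ L.J) (s : S1) : cj (L.V s) a ∈ L.J := L.RV a ha s

theorem comm_J' (L : Lev S1 S2 H μ) {b : H →L[ℂ] H} (hb : b ∈ L.J') {a : H →L[ℂ] H} (ha : a ∈ L.J) : a * b = b * a :=
  ((StarSubalgebra.mem_centralizer_iff ℂ).1 hb a ha).1

theorem VW_comm (L : Lev S1 S2 H μ) (s : S1) (h : S2) (a : H →L[ℂ] H) : cj (L.W h) (cj (L.V s) a) = cj (L.V s) (cj (L.W h) a) := by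
  rw [← cj_mul, ← cj_mul]
  congr 1
  refine LinearIsometryEquiv.ext fun x => ?_
  exact (L.VW s h x).symm

/-- `β_s` preserves `J2`. -/
theorem cj_V_J2 (L : Lev S1 S2 H μ) (z : Siz S2 μ) (s : S1) {x : H →L[ℂ] H} (hx : x ∈ L.J2 z) : cj (L.V s) x ∈ L.J2 z := by
  obtain ⟨h1, ⟨C, hC⟩, ⟨D, hD⟩⟩ := hx
  refine ⟨cj_V_mem L h1 s, ⟨C, fun h => ?_⟩, ⟨D, fun ξ => ?_⟩⟩
  · rw [VW_comm, ← cj_sub, norm_cj]
    exact hC h
  · have e1 : ∀ h, ‖cj (L.W h) (cj (L.V s) x) ξ‖ₑ = ‖cj (L.W h) x ((L.V s).symm ξ)‖ₑ := by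
      intro h
      rw [VW_comm, cj_apply, enorm_eq_nnnorm, enorm_eq_nnnorm, (L.V s).nnnorm_map]
    simp only [e1]
    refine (hD _).trans (le_of_eq ?_)
    rw [enorm_eq_nnnorm, (L.V s).symm.nnnorm_map, ← enorm_eq_nnnorm]

/-- `J2` is a left ideal for the Lipschitz elements. -/
theorem mul_J2 (L : Lev S1 S2 H μ) (z : Siz S2 μ) {a : H →L[ℂ] H} (ha : a ∈ L.J) (hl : L.Lip z a) {x : H →L[ℂ] H} (hx : x ∈ L.J2 z) :
    a * x ∈ L.J2 z := by
  obtain ⟨h1, ⟨C, hC⟩, ⟨D, hD⟩⟩ := hx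
  obtain ⟨C', hC'⟩ := hl
  refine ⟨mul_mem ha h1, ⟨‖a‖ * C + C' * ‖x‖, fun h => ?_⟩, ⟨‖a‖ ^ 2 * D, fun ξ => ?_⟩⟩
  · have e1 : cj (L.W h) (a * x) - a * x = cj (L.W h) a * (cj (L.W h) x - x) + (cj (L.W h) a - a) * x := by
      rw [cj_comp, mul_sub, sub_mul]
      abel
    rw [e1]
    refine (norm_add_le _ _).trans ?_
    have e2 : ‖cj (L.W h) a * (cj (L.W h) x - x)‖ ≤ ‖a‖ * (C * z.ρ h) :=
      (norm_mul_le _ _).trans (by rw [norm_cj]; exact mul_le_mul_of_nonneg_left (hC h) (norm_nonneg _))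
    have e3 : ‖(cj (L.W h) a - a) * x‖ ≤ (C' * z.ρ h) * ‖x‖ :=
      (norm_mul_le _ _).trans (mul_le_mul_of_nonneg_right (hC' h) (norm_nonneg _))
    refine (add_le_add e2 e3).trans (le_of_eq ?_)
    ring
  · have e1 : ∀ h, ‖cj (L.W h) (a * x) ξ‖ₑ ^ 2 ≤ ENNReal.ofReal (‖a‖ ^ 2) * ‖cj (L.W h) x ξ‖ₑ ^ 2 := by
      intro h
      rw [cj_comp, ENNReal.ofReal_pow (norm_nonneg _), ← mul_pow]
      gcongr
      change ‖cj (L.W h) a (cj (L.W h) x ξ)‖ₑ ≤ _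
      rw [← ofReal_norm, ← ofReal_norm, ← ENNReal.ofReal_mul (norm_nonneg _)]
      refine ENNReal.ofReal_le_ofReal ?_
      refine (ContinuousLinearMap.le_opNorm _ _).trans ?_
      rw [norm_cj]
    calc ∫⁻ h, ‖cj (L.W h) (a * x) ξ‖ₑ ^ 2 ∂μ ≤ ∫⁻ h, ENNReal.ofReal (‖a‖ ^ 2) * ‖cj (L.W h) x ξ‖ₑ ^ 2 ∂μ := lintegral_mono e1
      _ = ENNReal.ofReal (‖a‖ ^ 2) * ∫⁻ h, ‖cj (L.W h) x ξ‖ₑ ^ 2 ∂μ := by
        rw [lintegral_const_mul' _ _ ENNReal.ofReal_ne_top]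
      _ ≤ ENNReal.ofReal (‖a‖ ^ 2) * (ENNReal.ofReal D * ‖ξ‖ₑ ^ 2) := by gcongr; exact hD ξ
      _ = _ := by rw [ENNReal.ofReal_mul (by positivity), mul_assoc]

/-- A model of `K ⊗ H`. -/
structure Mod (L : Lev S1 S2 H μ) (z : Siz S2 μ) (E : Type) [NormedAddCommGroup E] [InnerProductSpace ℂ E] [CompleteSpace E] where
  /-- the elementary tensors -/
  e : J2X L z × H → E
  tot : Tot e
  inn : ∀ p q, (inner ℂ (e p) (e q) : ℂ) = ∫ h, (inner ℂ (cj (L.W h) p.1.1 p.2) (cj (L.W h) q.1.1 q.2) : ℂ) ∂μ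

theorem exists_Mod (L : Lev S1 S2 H μ) (z : Siz S2 μ) :
    ∃ (E : Type) (_ : NormedAddCommGroup E) (_ : InnerProductSpace ℂ E) (_ : CompleteSpace E), Nonempty (Mod L z E) := by
  set k : J2X L z × H → J2X L z × H → ℂ := fun p q => ∫ h, (inner ℂ (cj (L.W h) p.1.1 p.2) (cj (L.W h) q.1.1 q.2) : ℂ) ∂μ with hk
  have hk' : ∀ p q, k p q = inner ℂ ((memLp_cj L p.1.2.2.2 p.2).toLp _) ((memLp_cj L q.1.2.2.2 q.2).toLp _) := fun p q =>
    (inner_A L p.1.2.2.2 q.1.2.2.2 p.2 q.2).symm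
  obtain ⟨E, i1, i2, i3, v, hv, hi⟩ := exists_gram k (fun p q => by rw [hk', hk', inner_conj_symm]) (fun s c => by
    have e1 : ∑ i ∈ s, ∑ j ∈ s, (starRingEnd ℂ) (c i) * k i j * c j =
        inner ℂ (∑ i ∈ s, c i • (memLp_cj L i.1.2.2.2 i.2).toLp _) (∑ i ∈ s, c i • (memLp_cj L i.1.2.2.2 i.2).toLp _) := by
      rw [sum_inner]
      refine Finset.sum_congr rfl fun i _ => ?_
      rw [inner_sum]
      refine Finset.sum_congr rfl fun j _ => ?_
      rw [inner_smul_left, inner_smul_right, hk']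
      ring
    rw [e1]
    exact inner_self_nonneg (𝕜 := ℂ))
  exact ⟨E, i1, i2, i3, ⟨⟨v, hv, hi⟩⟩⟩

namespace Mod

variable {L : Lev S1 S2 H μ} {z : Siz S2 μ} {E : Type} [NormedAddCommGroup E] [InnerProductSpace ℂ E] [CompleteSpace E] (M : Mod L z E)

/-- The pairs (vector, function). -/
noncomputable def pr (p : J2X L z × H) : E × (S2 → H) := (M.e p, fun h => cj (L.W h) p.1.1 p.2)

/-- vectors together with their functions -/
noncomputable def EE : Submodule ℂ (E × (S2 → H)) := Submodule.span ℂ (Set.range M.pr)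

theorem pr_mem (p : J2X L z × H) : M.pr p ∈ M.EE := Submodule.subset_span ⟨p, rfl⟩

theorem EE_ind {P : E × (S2 → H) → Prop} (h1 : ∀ p, P (M.pr p)) (h0 : P 0) (ha : ∀ u v, P u → P v → P (u + v))
    (hs : ∀ (c : ℂ) u, P u → P (c • u)) {u : E × (S2 → H)} (hu : u ∈ M.EE) : P u := by
  refine Submodule.span_induction (p := fun u _ => P u) ?_ h0 (fun u v _ _ => ha u v) (fun c u _ => hs c u) hu
  rintro _ ⟨p, rfl⟩
  exact h1 p

theorem cont {u : E × (S2 → H)} (hu : u ∈ M.EE) : Continuous u.2 := by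
  refine M.EE_ind (P := fun u => Continuous u.2) (fun p => continuous_cj L _ _) continuous_const (fun u v h1 h2 => h1.add h2)
    (fun c u h1 => ?_) hu
  exact continuous_const.smul h1

theorem lip {u : E × (S2 → H)} (hu : u ∈ M.EE) : ∃ C : ℝ, ∀ h, ‖u.2 h - u.2 1‖ ≤ C * z.ρ h := by
  refine M.EE_ind (P := fun u => ∃ C : ℝ, ∀ h, ‖u.2 h - u.2 1‖ ≤ C * z.ρ h) (fun p => ?_) ⟨0, fun h => ?_⟩ ?_ ?_ hu
  · obtain ⟨C, hC⟩ := p.1.2.2.1
    refine ⟨C * ‖p.2‖, fun h => ?_⟩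
    change ‖cj (L.W h) p.1.1 p.2 - cj (L.W 1) p.1.1 p.2‖ ≤ _
    rw [map_one, cj_one, ← sub_apply]
    refine (ContinuousLinearMap.le_opNorm _ _).trans ?_
    calc ‖cj (L.W h) p.1.1 - p.1.1‖ * ‖p.2‖ ≤ (C * z.ρ h) * ‖p.2‖ := by gcongr; exact hC h
      _ = C * ‖p.2‖ * z.ρ h := by ring
  · change ‖(0 : H) - 0‖ ≤ _
    rw [sub_zero, norm_zero, zero_mul]
  · rintro u v ⟨C, hC⟩ ⟨D, hD⟩
    refine ⟨C + D, fun h => ?_⟩
    have e1 : (u + v).2 h - (u + v).2 1 = (u.2 h - u.2 1) + (v.2 h - v.2 1) := by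
      change (u.2 h + v.2 h) - (u.2 1 + v.2 1) = _
      abel
    rw [e1, add_mul]
    exact (norm_add_le _ _).trans (add_le_add (hC h) (hD h))
  · rintro c u ⟨C, hC⟩
    refine ⟨‖c‖ * C, fun h => ?_⟩
    have e1 : (c • u).2 h - (c • u).2 1 = c • (u.2 h - u.2 1) := by
      change c • u.2 h - c • u.2 1 = _
      rw [smul_sub]
    rw [e1, norm_smul, mul_assoc]
    exact mul_le_mul_of_nonneg_left (hC h) (norm_nonneg _)

theorem inn_EE {u v : E × (S2 → H)} (hu : u ∈ M.EE) (hv : v ∈ M.EE) : Integrable (fun h => (inner ℂ (u.2 h) (v.2 h) : ℂ)) μ ∧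
    ∫ h, (inner ℂ (u.2 h) (v.2 h) : ℂ) ∂μ = inner ℂ u.1 v.1 := by
  refine M.EE_ind (P := fun u => Integrable (fun h => (inner ℂ (u.2 h) (v.2 h) : ℂ)) μ ∧
    ∫ h, (inner ℂ (u.2 h) (v.2 h) : ℂ) ∂μ = inner ℂ u.1 v.1) (fun p => ?_) ?_ ?_ ?_ hu
  · refine M.EE_ind (P := fun v => Integrable (fun h => (inner ℂ ((M.pr p).2 h) (v.2 h) : ℂ)) μ ∧
      ∫ h, (inner ℂ ((M.pr p).2 h) (v.2 h) : ℂ) ∂μ = inner ℂ (M.pr p).1 v.1) (fun q => ?_) ?_ ?_ ?_ hv
    · exact ⟨integrable_phi L p.1.2.2.2 q.1.2.2.2 p.2 q.2, (M.inn p q).symm⟩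
    · have e1 : ∀ h, (inner ℂ ((M.pr p).2 h) ((0 : E × (S2 → H)).2 h) : ℂ) = 0 := fun h => inner_zero_right _
      simp only [e1]
      exact ⟨integrable_zero _ _ _, by rw [integral_zero]; exact (inner_zero_right _).symm⟩
    · rintro u' v' ⟨i1, j1⟩ ⟨i2, j2⟩
      have e1 : ∀ h, (inner ℂ ((M.pr p).2 h) ((u' + v').2 h) : ℂ) = inner ℂ ((M.pr p).2 h) (u'.2 h) + inner ℂ ((M.pr p).2 h) (v'.2 h) :=
        fun h => inner_add_right _ _ _
      simp only [e1]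
      refine ⟨i1.add i2, ?_⟩
      rw [integral_add i1 i2, j1, j2]
      exact (inner_add_right _ _ _).symm
    · rintro c u' ⟨i1, j1⟩
      have e1 : ∀ h, (inner ℂ ((M.pr p).2 h) ((c • u').2 h) : ℂ) = c * inner ℂ ((M.pr p).2 h) (u'.2 h) :=
        fun h => inner_smul_right _ _ _
      simp only [e1]
      refine ⟨i1.const_mul c, ?_⟩
      rw [integral_const_mul, j1]
      exact (inner_smul_right _ _ _).symm
  · have e1 : ∀ h, (inner ℂ ((0 : E × (S2 → H)).2 h) (v.2 h) : ℂ) = 0 := fun h => inner_zero_left _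
    simp only [e1]
    exact ⟨integrable_zero _ _ _, by rw [integral_zero]; exact (inner_zero_left _).symm⟩
  · rintro u' v' ⟨i1, j1⟩ ⟨i2, j2⟩
    have e1 : ∀ h, (inner ℂ ((u' + v').2 h) (v.2 h) : ℂ) = inner ℂ (u'.2 h) (v.2 h) + inner ℂ (v'.2 h) (v.2 h) :=
      fun h => inner_add_left _ _ _
    simp only [e1]
    refine ⟨i1.add i2, ?_⟩
    rw [integral_add i1 i2, j1, j2]
    exact (inner_add_left _ _ _).symm
  · rintro c u' ⟨i1, j1⟩
    have e1 : ∀ h, (inner ℂ ((c • u').2 h) (v.2 h) : ℂ) = (starRingEnd ℂ) c * inner ℂ (u'.2 h) (v.2 h) :=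
      fun h => inner_smul_left _ _ _
    simp only [e1]
    refine ⟨i1.const_mul _, ?_⟩
    rw [integral_const_mul, j1]
    exact (inner_smul_left _ _ _).symm

theorem norm_EE {u : E × (S2 → H)} (hu : u ∈ M.EE) : ∫⁻ h, ‖u.2 h‖ₑ ^ 2 ∂μ = ‖u.1‖ₑ ^ 2 := by
  obtain ⟨h1, h2⟩ := M.inn_EE hu hu
  have e0 : ∀ h, (inner ℂ (u.2 h) (u.2 h) : ℂ) = ((‖u.2 h‖ ^ 2 : ℝ) : ℂ) := by
    intro h
    rw [inner_self_eq_norm_sq_to_K]
    push_cast
    rfl
  simp only [e0] at h1 h2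
  have h3 : Integrable (fun h => ‖u.2 h‖ ^ 2) μ := by
    have := h1.re
    exact this
  have h4 : ∫ h, ‖u.2 h‖ ^ 2 ∂μ = ‖u.1‖ ^ 2 := by
    have e1 : (∫ h, ((‖u.2 h‖ ^ 2 : ℝ) : ℂ) ∂μ) = ((∫ h, ‖u.2 h‖ ^ 2 ∂μ : ℝ) : ℂ) := integral_ofReal (𝕜 := ℂ) (f := fun h => ‖u.2 h‖ ^ 2)
    rw [e1, inner_self_eq_norm_sq_to_K] at h2
    refine Complex.ofReal_injective (h2.trans ?_)
    push_cast
    rfl
  have h5 := ofReal_integral_eq_lintegral_ofReal h3 (Eventually.of_forall fun h => by positivity)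
  rw [h4] at h5
  have h6 : ∀ h, ENNReal.ofReal (‖u.2 h‖ ^ 2) = ‖u.2 h‖ₑ ^ 2 := by
    intro h
    rw [ENNReal.ofReal_pow (norm_nonneg _), ofReal_norm]
  simp only [h6] at h5
  rw [← h5, ENNReal.ofReal_pow (norm_nonneg _), ofReal_norm]

theorem dense (y : E) (hy : ∀ u ∈ M.EE, inner ℂ u.1 y = (0 : ℂ)) : y = 0 := M.tot y fun p => hy _ (M.pr_mem p)

/-- The form `φ` of the model. -/
theorem exists_phi' : ∃ φ : J2X L z → J2X L z → ℂ, ∀ p q, (inner ℂ (M.e p) (M.e q) : ℂ) = φ p.1 q.1 * inner ℂ p.2 q.2 := by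
  choose φ hφ using fun x y : J2X L z => exists_phi L x.2.1 y.2.1 x.2.2.2 y.2.2.2
  exact ⟨φ, fun p q => by rw [M.inn, hφ]⟩

theorem exists_V (s : S1) : ∃ U : E ≃ₗᵢ[ℂ] E, ∀ p, U (M.e p) = M.e (⟨cj (L.V s) p.1.1, cj_V_J2 L z s p.1.2⟩, L.V s p.2) := by
  refine gram_equiv M.tot (w := fun p : J2X L z × H => M.e (⟨cj (L.V s) p.1.1, cj_V_J2 L z s p.1.2⟩, L.V s p.2)) ?_ ?_
  · intro y hy
    refine M.tot y fun p => ?_
    have h1 := hy (⟨cj (L.V s).symm p.1.1, by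
      have := cj_V_J2 L z s⁻¹ p.1.2
      rw [map_inv] at this
      exact this⟩, (L.V s).symm p.2)
    have e1 : (⟨cj (L.V s) (cj (L.V s).symm p.1.1), by rw [cj_cj_symm]; exact p.1.2⟩ : J2X L z) = p.1 :=
      Subtype.ext (cj_cj_symm _ _)
    have e2 : L.V s ((L.V s).symm p.2) = p.2 := (L.V s).apply_symm_apply _
    simp only [e1, e2] at h1
    exact h1
  · intro p q
    rw [M.inn, M.inn]
    refine integral_congr_ae (Eventually.of_forall fun h => ?_)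
    change (inner ℂ (cj (L.W h) p.1.1 p.2) (cj (L.W h) q.1.1 q.2) : ℂ) =
      inner ℂ (cj (L.W h) (cj (L.V s) p.1.1) (L.V s p.2)) (cj (L.W h) (cj (L.V s) q.1.1) (L.V s q.2))
    rw [VW_comm, VW_comm, cj_apply (L.V s), cj_apply (L.V s), (L.V s).symm_apply_apply, (L.V s).symm_apply_apply, (L.V s).inner_map_map]

/-- The operators `V_1(s) ⊗ V(s)`. -/
noncomputable def VE (s : S1) : E ≃ₗᵢ[ℂ] E := (M.exists_V s).choose

theorem VE_e (s : S1) (p : J2X L z × H) : M.VE s (M.e p) = M.e (⟨cj (L.V s) p.1.1, cj_V_J2 L z s p.1.2⟩, L.V s p.2) :=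
  (M.exists_V s).choose_spec p

theorem VE_mem (s : S1) {u : E × (S2 → H)} (hu : u ∈ M.EE) : ((M.VE s u.1, fun h => L.V s (u.2 h)) : E × (S2 → H)) ∈ M.EE := by
  refine M.EE_ind (P := fun u => ((M.VE s u.1, fun h => L.V s (u.2 h)) : E × (S2 → H)) ∈ M.EE) (fun p => ?_) ?_ ?_ ?_ hu
  · have h1 := M.pr_mem (⟨cj (L.V s) p.1.1, cj_V_J2 L z s p.1.2⟩, L.V s p.2)
    convert h1 using 1
    refine Prod.ext (M.VE_e s p) ?_
    funext h
    change L.V s (cj (L.W h) p.1.1 p.2) = cj (L.W h) (cj (L.V s) p.1.1) (L.V s p.2)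
    rw [VW_comm, cj_apply (L.V s), (L.V s).symm_apply_apply]
  · convert M.EE.zero_mem using 1
    refine Prod.ext (map_zero _) ?_
    funext h
    exact map_zero _
  · intro u v h1 h2
    convert M.EE.add_mem h1 h2 using 1
    refine Prod.ext (map_add _ _ _) ?_
    funext h
    exact map_add _ _ _
  · intro c u h1
    convert M.EE.smul_mem c h1 using 1
    refine Prod.ext (map_smul _ _ _) ?_
    funext h
    exact map_smul _ _ _

theorem VE_symm_e (s : S1) (p : J2X L z × H) : (M.VE s).symm (M.e p) = M.e (⟨cj (L.V s⁻¹) p.1.1, cj_V_J2 L z s⁻¹ p.1.2⟩, L.V s⁻¹ p.2) := by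
  rw [LinearIsometryEquiv.symm_apply_eq, M.VE_e]
  congr 1
  refine Prod.ext (Subtype.ext ?_) ?_
  · change p.1.1 = cj (L.V s) (cj (L.V s⁻¹) p.1.1)
    rw [map_inv]
    exact (cj_cj_symm _ _).symm
  · change p.2 = L.V s (L.V s⁻¹ p.2)
    rw [map_inv]
    exact ((L.V s).apply_symm_apply _).symm

theorem VE_inv (s : S1) (u : E) : M.VE s⁻¹ u = (M.VE s).symm u := by
  have h1 : ((M.VE s⁻¹).toContinuousLinearEquiv : E →L[ℂ] E) = ((M.VE s).symm.toContinuousLinearEquiv : E →L[ℂ] E) := by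
    refine ext_tot M.tot fun p => ?_
    change M.VE s⁻¹ (M.e p) = (M.VE s).symm (M.e p)
    rw [M.VE_e, M.VE_symm_e]
  exact congrArg (fun A : E →L[ℂ] E => A u) h1

theorem exists_tn (a : H →L[ℂ] H) (ha : a ∈ L.J) (hl : L.Lip z a) (b : H →L[ℂ] H) (hb : b ∈ L.J') :
    ∃ A : E →L[ℂ] E, ∀ p, A (M.e p) = M.e (⟨a * p.1.1, mul_J2 L z ha hl p.1.2⟩, b p.2) := by
  obtain ⟨A, -, hA⟩ := gram_clm M.tot (fun p => M.e (⟨a * p.1.1, mul_J2 L z ha hl p.1.2⟩, b p.2)) (C := ‖a‖ * ‖b‖) (by positivity)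
    (fun s c => by
      have m1 : (∑ p ∈ s, c p • M.pr (⟨a * p.1.1, mul_J2 L z ha hl p.1.2⟩, b p.2)) ∈ M.EE :=
        Submodule.sum_mem _ fun p _ => Submodule.smul_mem _ _ (M.pr_mem _)
      have m2 : (∑ p ∈ s, c p • M.pr p) ∈ M.EE := Submodule.sum_mem _ fun p _ => Submodule.smul_mem _ _ (M.pr_mem _)
      have n1 := M.norm_EE m1
      have n2 := M.norm_EE m2
      have f1 : (∑ p ∈ s, c p • M.pr (⟨a * p.1.1, mul_J2 L z ha hl p.1.2⟩, b p.2)).1 =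
          ∑ p ∈ s, c p • M.e (⟨a * p.1.1, mul_J2 L z ha hl p.1.2⟩, b p.2) := by
        rw [Prod.fst_sum]
        rfl
      have f2 : (∑ p ∈ s, c p • M.pr p).1 = ∑ p ∈ s, c p • M.e p := by
        rw [Prod.fst_sum]
        rfl
      have g2 : ∀ h, (∑ p ∈ s, c p • M.pr p).2 h = ∑ p ∈ s, c p • cj (L.W h) p.1.1 p.2 := by
        intro h
        rw [Prod.snd_sum, Finset.sum_apply]
        rfl
      have g1 : ∀ h, (∑ p ∈ s, c p • M.pr (⟨a * p.1.1, mul_J2 L z ha hl p.1.2⟩, b p.2)).2 h =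
          cj (L.W h) a (b ((∑ p ∈ s, c p • M.pr p).2 h)) := by
        intro h
        rw [g2, Prod.snd_sum, Finset.sum_apply, map_sum, map_sum]
        refine Finset.sum_congr rfl fun p _ => ?_
        change c p • cj (L.W h) (a * p.1.1) (b p.2) = _
        rw [map_smul, map_smul, cj_comp]
        have e1 := congrArg (fun A : H →L[ℂ] H => A p.2) (comm_J' L hb (cj_W_mem L p.1.2.1 h))
        change cj (L.W h) p.1.1 (b p.2) = b (cj (L.W h) p.1.1 p.2) at e1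
        rw [← e1]
        rfl
      have h1 : ‖∑ p ∈ s, c p • M.e (⟨a * p.1.1, mul_J2 L z ha hl p.1.2⟩, b p.2)‖ₑ ^ 2 ≤
          (ENNReal.ofReal (‖a‖ * ‖b‖) * ‖∑ p ∈ s, c p • M.e p‖ₑ) ^ 2 := by
        rw [mul_pow, ← f1, ← f2, ← n1, ← n2, ← lintegral_const_mul' _ _ (ENNReal.pow_ne_top ENNReal.ofReal_ne_top)]
        refine lintegral_mono fun h => ?_
        rw [g1, ← mul_pow]
        gcongr
        rw [← ofReal_norm, ← ofReal_norm, ← ENNReal.ofReal_mul (by positivity)]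
        refine ENNReal.ofReal_le_ofReal ?_
        calc ‖cj (L.W h) a (b ((∑ p ∈ s, c p • M.pr p).2 h))‖ ≤ ‖cj (L.W h) a‖ * ‖b ((∑ p ∈ s, c p • M.pr p).2 h)‖ :=
              ContinuousLinearMap.le_opNorm _ _
          _ ≤ ‖a‖ * (‖b‖ * ‖(∑ p ∈ s, c p • M.pr p).2 h‖) := by
            rw [norm_cj]
            gcongr
            exact ContinuousLinearMap.le_opNorm _ _
          _ = _ := by ring
      have h2 := (ENNReal.pow_le_pow_left_iff two_ne_zero).1 h1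
      rw [← ofReal_norm, ← ofReal_norm, ← ENNReal.ofReal_mul (by positivity), ENNReal.ofReal_le_ofReal_iff (by positivity)] at h2
      exact h2)
  exact ⟨A, hA⟩

theorem tn (a : H →L[ℂ] H) (ha : a ∈ L.J) (hl : L.Lip z a) (b : H →L[ℂ] H) (hb : b ∈ L.J') {Rt : (H →L[ℂ] H) → (E →L[ℂ] E)}
    (hRt : ∀ c p, Rt c (M.e p) = M.e (p.1, c p.2)) :
    ∃ A : E →L[ℂ] E, (∀ p ∈ M.EE, ((A p.1, fun h => cj (L.W h) a (b (p.2 h))) : E × (S2 → H)) ∈ M.EE) ∧
    (∀ p ∈ M.EE, ((star A p.1, fun h => cj (L.W h) (star a) (star b (p.2 h))) : E × (S2 → H)) ∈ M.EE) ∧ ∀ c ∈ L.J, A * Rt c = Rt c * A := by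
  have hl' : L.Lip z (star a) := by
    obtain ⟨C, hC⟩ := hl
    refine ⟨C, fun h => ?_⟩
    rw [cj_star, ← star_sub, norm_star]
    exact hC h
  obtain ⟨A, hA⟩ := M.exists_tn a ha hl b hb
  obtain ⟨B, hB⟩ := M.exists_tn (star a) (star_mem ha) hl' (star b) (star_mem hb)
  -- the general statement about the functions
  have gen : ∀ (a : H →L[ℂ] H) (ha : a ∈ L.J) (hl : L.Lip z a) (b : H →L[ℂ] H) (hb : b ∈ L.J') (A : E →L[ℂ] E)
      (hA : ∀ p, A (M.e p) = M.e (⟨a * p.1.1, mul_J2 L z ha hl p.1.2⟩, b p.2)), ∀ p ∈ M.EE,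
      ((A p.1, fun h => cj (L.W h) a (b (p.2 h))) : E × (S2 → H)) ∈ M.EE := by
    intro a ha hl b hb A hA u hu
    refine M.EE_ind (P := fun u => ((A u.1, fun h => cj (L.W h) a (b (u.2 h))) : E × (S2 → H)) ∈ M.EE) (fun p => ?_) ?_ ?_ ?_ hu
    · have h1 := M.pr_mem (⟨a * p.1.1, mul_J2 L z ha hl p.1.2⟩, b p.2)
      convert h1 using 1
      refine Prod.ext (hA p) ?_
      funext h
      change cj (L.W h) a (b (cj (L.W h) p.1.1 p.2)) = cj (L.W h) (a * p.1.1) (b p.2)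
      have e1 := congrArg (fun A : H →L[ℂ] H => A p.2) (comm_J' L hb (cj_W_mem L p.1.2.1 h))
      change cj (L.W h) p.1.1 (b p.2) = b (cj (L.W h) p.1.1 p.2) at e1
      rw [← e1, cj_comp]
      rfl
    · convert M.EE.zero_mem using 1
      refine Prod.ext (map_zero _) ?_
      funext h
      change cj (L.W h) a (b 0) = 0
      rw [map_zero, map_zero]
    · intro u v h1 h2
      convert M.EE.add_mem h1 h2 using 1
      refine Prod.ext (map_add _ _ _) ?_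
      funext h
      change cj (L.W h) a (b (u.2 h + v.2 h)) = _
      rw [map_add, map_add]
      rfl
    · intro c u h1
      convert M.EE.smul_mem c h1 using 1
      refine Prod.ext (map_smul _ _ _) ?_
      funext h
      change cj (L.W h) a (b (c • u.2 h)) = _
      rw [map_smul, map_smul]
      rfl
  have hAB : star A = B := by
    refine ext_tot M.tot fun p => ?_
    refine sub_eq_zero.1 (M.tot _ fun q => ?_)
    rw [inner_sub_right, ContinuousLinearMap.star_eq_adjoint, ContinuousLinearMap.adjoint_inner_right, hA, hB, M.inn, M.inn, sub_eq_zero]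
    refine integral_congr_ae (Eventually.of_forall fun h => ?_)
    change (inner ℂ (cj (L.W h) (a * q.1.1) (b q.2)) (cj (L.W h) p.1.1 p.2) : ℂ) =
      inner ℂ (cj (L.W h) q.1.1 q.2) (cj (L.W h) (star a * p.1.1) (star b p.2))
    have e1 := congrArg (fun A : H →L[ℂ] H => A q.2) (comm_J' L hb (cj_W_mem L q.1.2.1 h))
    change cj (L.W h) q.1.1 (b q.2) = b (cj (L.W h) q.1.1 q.2) at e1
    have e2 := congrArg (fun A : H →L[ℂ] H => A p.2) (comm_J' L (star_mem hb) (cj_W_mem L p.1.2.1 h))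
    change cj (L.W h) p.1.1 (star b p.2) = star b (cj (L.W h) p.1.1 p.2) at e2
    have e3 := congrArg (fun A : H →L[ℂ] H => A (cj (L.W h) p.1.1 p.2)) (comm_J' L (star_mem hb) (cj_W_mem L (star_mem ha) h))
    change cj (L.W h) (star a) (star b (cj (L.W h) p.1.1 p.2)) = star b (cj (L.W h) (star a) (cj (L.W h) p.1.1 p.2)) at e3
    rw [cj_comp, cj_comp]
    change (inner ℂ (cj (L.W h) a (cj (L.W h) q.1.1 (b q.2))) (cj (L.W h) p.1.1 p.2) : ℂ) =
      inner ℂ (cj (L.W h) q.1.1 q.2) (cj (L.W h) (star a) (cj (L.W h) p.1.1 (star b p.2)))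
    rw [e1, e2, e3, cj_star, ContinuousLinearMap.star_eq_adjoint, ContinuousLinearMap.star_eq_adjoint,
      ContinuousLinearMap.adjoint_inner_right, ContinuousLinearMap.adjoint_inner_right]
  refine ⟨A, gen a ha hl b hb A hA, ?_, fun c hc => ?_⟩
  · rw [hAB]
    exact gen _ (star_mem ha) hl' _ (star_mem hb) B hB
  · refine ext_tot M.tot fun p => ?_
    change A (Rt c (M.e p)) = Rt c (A (M.e p))
    rw [hRt, hA, hA, hRt]
    congr 1
    refine Prod.ext rfl ?_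
    exact (congrArg (fun A : H →L[ℂ] H => A p.2) (comm_J' L hb hc)).symm

end Mod

end Pool.Agent.Helper16.TZ
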